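import Pool.Agent.L0h20.AS.Stm
import Pool.Agent.L0h20.SY.Core

/-!
# Sets with a suitable permutation outside a given set (module CYR of helper20)
-/

set_option autoImplicit false

namespace Pool.Agent.L0h78.AS

open Pool.Agent.L0h20.AS Pool.Agent.L0h20.SY

theorem t_CYR : S_CYR := by
  classical
  intro p q n k hp hq hpq hn
  obtain ⟨R₀, c₀, l, -, hRc, hcR, hcl, hk, hfree, hdvd⟩ := h_CYC p q n k Finset.univ hp hq hpq
    (by rw [Finset.card_univ, Fintype.card_fin]; exact hn)
  refine ⟨R₀.card, l, hRc, hk, hdvd, fun U hU => ?_⟩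
  obtain ⟨g, -, -, hg⟩ := h_MOV (Fin n) Finset.univ ∅ R₀ U (Finset.empty_subset _)
    (Finset.subset_univ _) (Finset.subset_univ _) (Finset.disjoint_empty_left _)
    (by rw [Finset.card_empty, Finset.card_univ, Fintype.card_fin]; omega)
  refine ⟨R₀.map g.toEmbedding, g * c₀ * g⁻¹, ?_, Finset.card_map _, ?_, ?_, ?_⟩
  · rw [Finset.disjoint_left]
    intro x hx hxU
    rw [Finset.mem_map] at hx
    obtain ⟨b, hb, rfl⟩ := hx
    exact hg b hb hxU
  · intro x hx
    have hx' : g⁻¹ x ∉ R₀ := by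
      intro h
      apply hx
      rw [Finset.mem_map]
      exact ⟨g⁻¹ x, h, by simp⟩
    rw [Equiv.Perm.mul_apply, Equiv.Perm.mul_apply, hcR _ hx']
    simp
  · rw [conj_pow, hcl]
    simp
  · intro x hx i hi hi'
    rw [Finset.mem_map] at hx
    obtain ⟨b, hb, rfl⟩ := hx
    rw [conj_pow]
    intro h
    apply hfree b hb i hi hi'
    have h2 : g ((c₀ ^ i) b) = g b := by simpa using h
    exact g.injective h2

end Pool.Agent.L0h78.AS
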